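import Mathlib

/-!
# Nonemptiness of the Clifford spectrum (MP_9fb148_an, frozen S05597): statements

Plan.  Let `d = 2t+2`, `e = 2t+1`, `g` Clifford generators, `B j` commuting with all `g k`,
`K = sum B_j g_j`, `Gam = g_0 g_1 ... g_{d-1}`, `X = sum x_j g_j`.  If `K - X` is invertible
for all real `x`, then so is `eps K - X` for `(eps, x) ≠ (0, 0)`; with `S = (eps K - X)⁻¹`,
`d_i S = S g_i S`, and the function
`F_s(x) = tr (Gam * S g_{s 1} S g_{s 2} ... S g_{s e})` (`s` a permutation of `Fin d`) satisfies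
`sum_s sgn(s) d_{s 0} F_s = 0` (cyclicity of the trace).  Integrate against a radial bump and
let `eps → 0`: `sum_s sgn(s) ∫ x_{s 0} psi(|x|^2) F_s dx = 0` at `eps = 0`, where the left side is
an explicit nonzero number.
-/

set_option autoImplicit false

namespace Pool.Agent.Y727.CS

open Matrix

/-- generators of a Clifford representation -/
def Cl {ι : Type} [Fintype ι] [DecidableEq ι] {d : ℕ} (g : Fin d → Matrix ι ι ℂ) : Prop :=
  (∀ j, g j * g j = 1) ∧ ∀ j k, j ≠ k → g j * g k = -(g k * g j)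

/-- `X = sum x_j g_j` -/
noncomputable def X {ι : Type} [Fintype ι] [DecidableEq ι] {d : ℕ}
    (g : Fin d → Matrix ι ι ℂ) (x : Fin d → ℝ) : Matrix ι ι ℂ := ∑ j, (x j : ℂ) • g j

/-- the volume element `g_0 g_1 ... g_{d-1}` -/
noncomputable def Gam {ι : Type} [Fintype ι] [DecidableEq ι] {d : ℕ}
    (g : Fin d → Matrix ι ι ℂ) : Matrix ι ι ℂ := (List.ofFn g).prod

/-- `word S w = S w_0 S w_1 ... S w_{k-1}` -/
noncomputable def word {ι : Type} [Fintype ι] [DecidableEq ι] {k : ℕ}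
    (S : Matrix ι ι ℂ) (w : Fin k → Matrix ι ι ℂ) : Matrix ι ι ℂ :=
  (List.ofFn fun i => S * w i).prod

/-- the sign of a permutation, as a complex number -/
noncomputable def sg {d : ℕ} (s : Equiv.Perm (Fin d)) : ℂ := ((Equiv.Perm.sign s : ℤ) : ℂ)

/-- squared Euclidean length -/
noncomputable def nsq {d : ℕ} (x : Fin d → ℝ) : ℝ := ∑ j, x j ^ 2

/-- bump supported on `[1, 2]` -/
noncomputable def psi (s : ℝ) : ℝ := max 0 ((s - 1) * (2 - s))

/-- its primitive: `phi' = -psi`, `phi = 0` on `[2, ∞)` -/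
noncomputable def phi (s : ℝ) : ℝ := ∫ u in s..2, psi u

/-- SGN1: reordering the product of all generators. -/
def S_sgn : Prop := ∀ (ι : Type) [Fintype ι] [DecidableEq ι] (d : ℕ) (g : Fin d → Matrix ι ι ℂ),
  Cl g → ∀ s : Equiv.Perm (Fin d), (List.ofFn fun i => g (s i)).prod = sg s • Gam g

/-- SGN2: for even `d` the volume element anticommutes with the generators. -/
def S_ant : Prop := ∀ (ι : Type) [Fintype ι] [DecidableEq ι] (d : ℕ) (g : Fin d → Matrix ι ι ℂ),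
  Even d → Cl g → ∀ j, Gam g * g j = -(g j * Gam g)

/-- SGN3: the square of the volume element is `±1`. -/
def S_sq : Prop := ∀ (ι : Type) [Fintype ι] [DecidableEq ι] (d : ℕ) (g : Fin d → Matrix ι ι ℂ),
  Cl g → Gam g * Gam g = 1 ∨ Gam g * Gam g = -1

/-- CYC: the cyclicity identity. -/
def S_cyc : Prop := ∀ (ι : Type) [Fintype ι] [DecidableEq ι] (e : ℕ)
  (g : Fin (e + 1) → Matrix ι ι ℂ) (S Ga : Matrix ι ι ℂ), Odd e →
  S * Ga = -(Ga * S) → (∀ j, Ga * g j = -(g j * Ga)) → ∀ p : Fin e,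
  ∑ s : Equiv.Perm (Fin (e + 1)), sg s * (Ga * word S
    (Fin.insertNth p.castSucc (g (s 0)) (fun k : Fin e => g (s k.succ)) :
      Fin (e + 1) → Matrix ι ι ℂ)).trace = 0

/-- DER: the partial derivatives of `x ↦ tr (Ga * word (K - X g x)⁻¹ w)`. -/
def S_der : Prop := ∀ (ι : Type) [Fintype ι] [DecidableEq ι] (d e : ℕ)
  (g : Fin d → Matrix ι ι ℂ) (w : Fin e → Matrix ι ι ℂ) (K Ga : Matrix ι ι ℂ)
  (x : Fin d → ℝ) (i : Fin d), (K - X g x).det ≠ 0 →
  HasLineDerivAt ℝ (fun y : Fin d → ℝ => (Ga * word (K - X g y)⁻¹ w).trace)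
    (∑ p : Fin e, (Ga * word (K - X g x)⁻¹
      (Fin.insertNth p.castSucc (g i) w : Fin (e + 1) → Matrix ι ι ℂ)).trace) x (Pi.single i 1)

/-- IBP: integration by parts against the radial bump. -/
def S_ibp : Prop := ∀ (d : ℕ) (i : Fin d) (F F' : (Fin d → ℝ) → ℂ),
  Continuous F → Continuous F' →
  (∀ x, HasLineDerivAt ℝ F (F' x) x (Pi.single i 1)) →
  ∫ x : Fin d → ℝ, (phi (nsq x) : ℂ) * F' x
    = 2 * ∫ x : Fin d → ℝ, (psi (nsq x) : ℂ) * ((x i : ℂ) * F x)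

/-- INT: integrability of the integrands of IBP (for finite sums). -/
def S_int : Prop := ∀ (d : ℕ) (F : (Fin d → ℝ) → ℂ), Continuous F →
  MeasureTheory.Integrable (fun x : Fin d → ℝ => (phi (nsq x) : ℂ) * F x) ∧
  MeasureTheory.Integrable (fun x : Fin d → ℝ => (psi (nsq x) : ℂ) * F x)

/-- LIM: passing to the limit `eps → 0+`. -/
def S_lim : Prop := ∀ (d : ℕ) (H : ℝ → (Fin d → ℝ) → ℂ),
  ContinuousOn (fun p : ℝ × (Fin d → ℝ) => H p.1 p.2)
    {p | 0 ≤ p.1 ∧ p.1 ≤ 1 ∧ 1 ≤ nsq p.2 ∧ nsq p.2 ≤ 2} →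
  (∀ eps : ℝ, 0 < eps → eps ≤ 1 → ∫ x : Fin d → ℝ, (psi (nsq x) : ℂ) * H eps x = 0) →
  ∫ x : Fin d → ℝ, (psi (nsq x) : ℂ) * H 0 x = 0

/-- EVAL: the explicit antisymmetrised word. -/
def S_eval : Prop := ∀ (ι : Type) [Fintype ι] [DecidableEq ι] (t : ℕ)
  (g : Fin (2 * t + 1 + 1) → Matrix ι ι ℂ), Cl g → ∀ x : Fin (2 * t + 1 + 1) → ℝ,
  ∑ s : Equiv.Perm (Fin (2 * t + 1 + 1)), (sg s * (x (s 0) : ℂ)) •
      word (X g x) (fun k : Fin (2 * t + 1) => g (s k.succ))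
    = ((-1 : ℂ) ^ t * ((2 * t + 1).factorial : ℂ) * (nsq x : ℂ) ^ (t + 1)) • Gam g

/-- POS: positivity of the radial integral. -/
def S_pos : Prop := ∀ (d k : ℕ), 0 < d →
  ∫ x : Fin d → ℝ, (psi (nsq x) : ℂ) * (((nsq x)⁻¹ : ℝ) : ℂ) ^ k ≠ 0

/-- the main theorem for even `d` -/
def S_T : Prop := ∀ (ι : Type) [Fintype ι] [DecidableEq ι] [Nonempty ι] (t : ℕ)
  (g B : Fin (2 * t + 1 + 1) → Matrix ι ι ℂ), Cl g → (∀ j k, B j * g k = g k * B j) →
  ∃ x : Fin (2 * t + 1 + 1) → ℝ, (∑ j, B j * g j - X g x).det = 0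

/-- RED: reduction of the frozen statement to the even case. -/
def S_red : Prop := S_T →
    ∀ (n d m : ℕ), 0 < n → 0 < m →
      ∀ (A : Fin d → Matrix (Fin n) (Fin n) ℂ) (γ : Fin d → Matrix (Fin m) (Fin m) ℂ),
        (∀ j, (A j).IsHermitian) →
        (∀ j, (γ j).IsHermitian) →
        (∀ j, γ j * γ j = 1) →
        (∀ j k, j ≠ k → γ j * γ k = -(γ k * γ j)) →
        ∃ x : Fin d → ℝ,
          (∑ j : Fin d,
            Matrix.kronecker (A j - ((x j : ℂ)) • (1 : Matrix (Fin n) (Fin n) ℂ)) (γ j)).det = 0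

end Pool.Agent.Y727.CS
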