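import Pool.Agent.Y727.CS.Main

/-!
# Nonemptiness of the Clifford spectrum: the even case from its ingredients
-/

set_option autoImplicit false

namespace Pool.Agent.Y727.CS

open Matrix MeasureTheory

theorem main_T (hant : S_ant) (hsq : S_sq) (hcyc : S_cyc) (hder : S_der) (hibp : S_ibp)
    (hint : S_int) (hlim : S_lim) (heval : S_eval) (hpos : S_pos) : S_T := by
  intro ι _ _ _ t g B hg hB
  by_contra hcon
  push Not at hcon
  set K : Matrix ι ι ℂ := ∑ j, B j * g j with hK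
  set Ga : Matrix ι ι ℂ := Gam g with hGa
  have heven : Even (2 * t + 1 + 1) := ⟨t + 1, by ring⟩
  have hodd : Odd (2 * t + 1) := ⟨t, rfl⟩
  have hanti : ∀ j, Ga * g j = -(g j * Ga) := hant ι _ g heven hg
  -- `K` and `X` anticommute with `Ga`
  have hKGa : K * Ga = -(Ga * K) := by
    rw [hK, Finset.sum_mul, Finset.mul_sum, ← Finset.sum_neg_distrib]
    refine Finset.sum_congr rfl fun j _ => ?_
    have h1 : B j * Ga = Ga * B j := gam_comm (hB j)
    rw [mul_assoc, show g j * Ga = -(Ga * g j) by rw [hanti, neg_neg], mul_neg, ← mul_assoc, h1,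
      mul_assoc]
  have hXGa : ∀ x, X g x * Ga = -(Ga * X g x) := by
    intro x
    rw [X, Finset.sum_mul, Finset.mul_sum, ← Finset.sum_neg_distrib]
    refine Finset.sum_congr rfl fun j _ => ?_
    rw [smul_mul_assoc, mul_smul_comm, hanti j, smul_neg, neg_neg]
  have hMGa : ∀ (eps : ℝ) x, ((eps : ℂ) • K - X g x) * Ga = -(Ga * ((eps : ℂ) • K - X g x)) := by
    intro eps x
    rw [sub_mul, mul_sub, smul_mul_assoc, mul_smul_comm, hKGa, hXGa, smul_neg]
    abel
  -- determinants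
  have hdet1 : ∀ (eps : ℝ), eps ≠ 0 → ∀ x, ((eps : ℂ) • K - X g x).det ≠ 0 := by
    intro eps he x
    have h1 : (eps : ℂ) • K - X g x = (eps : ℂ) • (K - X g (eps⁻¹ • x)) := by
      rw [X_smul, smul_sub, smul_smul, ← Complex.ofReal_mul, mul_inv_cancel₀ he,
        Complex.ofReal_one, one_smul]
    rw [h1, Matrix.det_smul]
    exact mul_ne_zero (pow_ne_zero _ (Complex.ofReal_ne_zero.mpr he)) (hcon _)
  have hdet0 : ∀ x, nsq x ≠ 0 → (((0 : ℝ) : ℂ) • K - X g x).det ≠ 0 := by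
    intro x hx h0
    rw [Complex.ofReal_zero, zero_smul, zero_sub] at h0
    have h1 : (-(X g x)) * (-(X g x)) = (nsq x : ℂ) • (1 : Matrix ι ι ℂ) := by
      rw [neg_mul_neg, X_sq hg]
    have h2 := congrArg Matrix.det h1
    rw [Matrix.det_mul, h0, mul_zero, Matrix.det_smul, Matrix.det_one, mul_one] at h2
    exact pow_ne_zero _ (Complex.ofReal_ne_zero.mpr hx) h2.symm
  -- continuity of `(eps, x) ↦ eps K - X`
  have hcontM : Continuous fun p : ℝ × (Fin (2 * t + 1 + 1) → ℝ) => (p.1 : ℂ) • K - X g p.2 :=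
    ((Complex.continuous_ofReal.comp continuous_fst).smul continuous_const).sub
      ((continuous_X g).comp continuous_snd)
  have hcontMe : ∀ eps : ℝ, Continuous fun x : Fin (2 * t + 1 + 1) → ℝ =>
      (eps : ℂ) • K - X g x := fun eps => continuous_const.sub (continuous_X g)
  have hcontT : ∀ {k : ℕ} (w : Fin k → Matrix ι ι ℂ),
      Continuous fun S : Matrix ι ι ℂ => (Ga * word S w).trace := fun w =>
    (continuous_const.matrix_mul (continuous_word w)).matrix_trace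
  -- the functions
  set F : Equiv.Perm (Fin (2 * t + 1 + 1)) → ℝ → (Fin (2 * t + 1 + 1) → ℝ) → ℂ :=
    fun s eps x => (Ga * word ((eps : ℂ) • K - X g x)⁻¹
      (fun k : Fin (2 * t + 1) => g (s k.succ))).trace with hF
  set H : ℝ → (Fin (2 * t + 1 + 1) → ℝ) → ℂ :=
    fun eps x => ∑ s : Equiv.Perm (Fin (2 * t + 1 + 1)), sg s * ((x (s 0) : ℂ) * F s eps x) with hH
  have hHcont : ContinuousOn (fun p : ℝ × (Fin (2 * t + 1 + 1) → ℝ) => H p.1 p.2)
      {p | 0 ≤ p.1 ∧ p.1 ≤ 1 ∧ 1 ≤ nsq p.2 ∧ nsq p.2 ≤ 2} := by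
    simp only [hH]
    refine continuousOn_finsetSum _ fun s _ => ?_
    refine continuousOn_const.mul (ContinuousOn.mul ?_ ?_)
    · exact (Complex.continuous_ofReal.comp
        ((continuous_apply (s 0)).comp continuous_snd)).continuousOn
    · simp only [hF]
      have h1 : ContinuousOn (fun p : ℝ × (Fin (2 * t + 1 + 1) → ℝ) =>
          ((p.1 : ℂ) • K - X g p.2)⁻¹) {p | 0 ≤ p.1 ∧ p.1 ≤ 1 ∧ 1 ≤ nsq p.2 ∧ nsq p.2 ≤ 2} := by
        refine continuousOn_inv hcontM fun p hp => ?_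
        obtain ⟨-, -, hp3, -⟩ := hp
        by_cases he : p.1 = 0
        · have := hdet0 p.2 (by linarith)
          rw [he]
          exact this
        · exact hdet1 p.1 he p.2
      exact (hcontT _).comp_continuousOn h1
  -- the integrals vanish for `eps ≠ 0`
  have hzero : ∀ eps : ℝ, 0 < eps → eps ≤ 1 →
      ∫ x : Fin (2 * t + 1 + 1) → ℝ, (psi (nsq x) : ℂ) * H eps x = 0 := by
    intro eps he _
    have hdet := hdet1 eps he.ne'
    have hinvc : Continuous fun x : Fin (2 * t + 1 + 1) → ℝ => ((eps : ℂ) • K - X g x)⁻¹ := by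
      rw [← continuousOn_univ]
      exact continuousOn_inv (hcontMe eps) fun x _ => hdet x
    set F' : Equiv.Perm (Fin (2 * t + 1 + 1)) → (Fin (2 * t + 1 + 1) → ℝ) → ℂ :=
      fun s x => ∑ p : Fin (2 * t + 1), (Ga * word ((eps : ℂ) • K - X g x)⁻¹
        (Fin.insertNth p.castSucc (g (s 0)) (fun k : Fin (2 * t + 1) => g (s k.succ)) :
          Fin (2 * t + 1 + 1) → Matrix ι ι ℂ)).trace with hF'
    have hFc : ∀ s, Continuous (F s eps) := fun s => (hcontT _).comp hinvc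
    have hFc' : ∀ s, Continuous (F' s) := fun s =>
      continuous_finsetSum _ fun p _ => (hcontT _).comp hinvc
    have hline : ∀ s, ∀ x, HasLineDerivAt ℝ (F s eps) (F' s x) x (Pi.single (s 0) 1) := by
      intro s x
      exact hder ι _ _ g (fun k : Fin (2 * t + 1) => g (s k.succ)) ((eps : ℂ) • K) Ga x (s 0)
        (hdet x)
    have hI : ∀ s, ∫ x : Fin (2 * t + 1 + 1) → ℝ, (phi (nsq x) : ℂ) * F' s x
        = 2 * ∫ x : Fin (2 * t + 1 + 1) → ℝ, (psi (nsq x) : ℂ) * ((x (s 0) : ℂ) * F s eps x) :=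
      fun s => hibp _ (s 0) (F s eps) (F' s) (hFc s) (hFc' s) (hline s)
    have hsum0 : ∀ x, ∑ s : Equiv.Perm (Fin (2 * t + 1 + 1)), sg s * F' s x = 0 := by
      intro x
      simp only [hF', Finset.mul_sum]
      rw [Finset.sum_comm]
      refine Finset.sum_eq_zero fun p _ => ?_
      exact hcyc ι (2 * t + 1) g _ Ga hodd (inv_anti (hdet x) (hMGa eps x)) hanti p
    have hxF : ∀ s : Equiv.Perm (Fin (2 * t + 1 + 1)),
        Continuous fun x : Fin (2 * t + 1 + 1) → ℝ => (x (s 0) : ℂ) * F s eps x := fun s =>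
      (Complex.continuous_ofReal.comp (continuous_apply (s 0))).mul (hFc s)
    have e1 : ∫ x : Fin (2 * t + 1 + 1) → ℝ, (psi (nsq x) : ℂ) * H eps x
        = ∑ s : Equiv.Perm (Fin (2 * t + 1 + 1)), sg s *
          ∫ x : Fin (2 * t + 1 + 1) → ℝ, (psi (nsq x) : ℂ) * ((x (s 0) : ℂ) * F s eps x) := by
      have h1 : ∀ x : Fin (2 * t + 1 + 1) → ℝ, (psi (nsq x) : ℂ) * H eps x =
          ∑ s : Equiv.Perm (Fin (2 * t + 1 + 1)),
            sg s * ((psi (nsq x) : ℂ) * ((x (s 0) : ℂ) * F s eps x)) := by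
        intro x
        simp only [hH, Finset.mul_sum]
        exact Finset.sum_congr rfl fun s _ => by ring
      simp only [h1]
      rw [integral_finsetSum]
      · exact Finset.sum_congr rfl fun s _ => integral_const_mul _ _
      · intro s _
        exact ((hint _ _ (hxF s)).2).const_mul _
    have e2 : ∫ x : Fin (2 * t + 1 + 1) → ℝ, (phi (nsq x) : ℂ) *
          ∑ s : Equiv.Perm (Fin (2 * t + 1 + 1)), sg s * F' s x
        = ∑ s : Equiv.Perm (Fin (2 * t + 1 + 1)), sg s *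
          ∫ x : Fin (2 * t + 1 + 1) → ℝ, (phi (nsq x) : ℂ) * F' s x := by
      have h1 : ∀ x : Fin (2 * t + 1 + 1) → ℝ, (phi (nsq x) : ℂ) *
          ∑ s : Equiv.Perm (Fin (2 * t + 1 + 1)), sg s * F' s x =
          ∑ s : Equiv.Perm (Fin (2 * t + 1 + 1)), sg s * ((phi (nsq x) : ℂ) * F' s x) := by
        intro x
        simp only [Finset.mul_sum]
        exact Finset.sum_congr rfl fun s _ => by ring
      simp only [h1]
      rw [integral_finsetSum]
      · exact Finset.sum_congr rfl fun s _ => integral_const_mul _ _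
      · intro s _
        exact ((hint _ _ (hFc' s)).1).const_mul _
    simp only [hsum0, mul_zero, integral_zero, hI] at e2
    rw [e1]
    have h3 : (2 : ℂ) * ∑ s : Equiv.Perm (Fin (2 * t + 1 + 1)), sg s *
        ∫ x : Fin (2 * t + 1 + 1) → ℝ, (psi (nsq x) : ℂ) * ((x (s 0) : ℂ) * F s eps x) = 0 := by
      rw [e2, Finset.mul_sum]
      exact Finset.sum_congr rfl fun s _ => by ring
    exact (mul_eq_zero.mp h3).resolve_left two_ne_zero
  -- the limit
  have hfin := hlim _ H hHcont hzero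
  -- evaluation at `eps = 0`
  have hH0 : ∀ x : Fin (2 * t + 1 + 1) → ℝ, nsq x ≠ 0 →
      H 0 x = (-((-1 : ℂ) ^ t * ((2 * t + 1).factorial : ℂ) * (Ga * Ga).trace)) *
        (((nsq x)⁻¹ : ℝ) : ℂ) ^ t := by
    intro x hx
    have hxc : (nsq x : ℂ) ≠ 0 := Complex.ofReal_ne_zero.mpr hx
    have hinv : (((0 : ℝ) : ℂ) • K - X g x)⁻¹ = (-(nsq x : ℂ)⁻¹) • X g x := by
      refine Matrix.inv_eq_right_inv ?_
      rw [Complex.ofReal_zero, zero_smul, zero_sub, neg_mul, mul_smul_comm, X_sq hg, smul_smul,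
        neg_mul, inv_mul_cancel₀ hxc, neg_smul, one_smul, neg_neg]
    have h1 : ∀ s : Equiv.Perm (Fin (2 * t + 1 + 1)),
        sg s * ((x (s 0) : ℂ) * F s 0 x) =
        (-(nsq x : ℂ)⁻¹) ^ (2 * t + 1) * (Ga * ((sg s * (x (s 0) : ℂ)) •
          word (X g x) (fun k : Fin (2 * t + 1) => g (s k.succ)))).trace := by
      intro s
      simp only [hF]
      rw [hinv, word_smul, Matrix.mul_smul, Matrix.trace_smul, Matrix.mul_smul, Matrix.trace_smul,
        smul_eq_mul, smul_eq_mul]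
      ring
    simp only [hH]
    rw [Finset.sum_congr rfl fun s _ => h1 s, ← Finset.mul_sum, ← Matrix.trace_sum,
      ← Finset.mul_sum, heval ι t g hg x, Matrix.mul_smul, Matrix.trace_smul, smul_eq_mul]
    have h2 : (((nsq x)⁻¹ : ℝ) : ℂ) = (nsq x : ℂ)⁻¹ := Complex.ofReal_inv _
    rw [h2]
    have h3 : (-(nsq x : ℂ)⁻¹) ^ (2 * t + 1) * (nsq x : ℂ) ^ (t + 1) = -((nsq x : ℂ)⁻¹ ^ t) := by
      have h4 : (nsq x : ℂ)⁻¹ ^ (2 * t + 1) = (nsq x : ℂ)⁻¹ ^ t * (nsq x : ℂ)⁻¹ ^ (t + 1) := by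
        rw [← pow_add]
        congr 1
        ring
      rw [Odd.neg_pow hodd, h4, neg_mul, mul_assoc, ← mul_pow, inv_mul_cancel₀ hxc, one_pow,
        mul_one]
    calc (-(nsq x : ℂ)⁻¹) ^ (2 * t + 1) * ((-1 : ℂ) ^ t * ((2 * t + 1).factorial : ℂ) *
          (nsq x : ℂ) ^ (t + 1) * (Ga * Gam g).trace)
        = ((-(nsq x : ℂ)⁻¹) ^ (2 * t + 1) * (nsq x : ℂ) ^ (t + 1)) *
          ((-1 : ℂ) ^ t * ((2 * t + 1).factorial : ℂ) * (Ga * Gam g).trace) := by ring
      _ = _ := by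
        rw [h3]
        ring
  set c : ℂ := -((-1 : ℂ) ^ t * ((2 * t + 1).factorial : ℂ) * (Ga * Ga).trace) with hc
  have hfin2 : ∫ x : Fin (2 * t + 1 + 1) → ℝ, (psi (nsq x) : ℂ) * H 0 x =
      c * ∫ x : Fin (2 * t + 1 + 1) → ℝ, (psi (nsq x) : ℂ) * (((nsq x)⁻¹ : ℝ) : ℂ) ^ t := by
    rw [← integral_const_mul]
    refine integral_congr_ae (Filter.Eventually.of_forall fun x => ?_)
    by_cases hx : nsq x = 0
    · simp only [hx, psi_zero]
      simp
    · simp only [hH0 x hx]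
      ring
  rw [hfin2] at hfin
  have htr : (Ga * Ga).trace ≠ 0 := by
    have hcard : (Fintype.card ι : ℂ) ≠ 0 := by
      exact_mod_cast Fintype.card_ne_zero
    rcases hsq ι _ g hg with h | h
    · rw [hGa, h, Matrix.trace_one]
      exact hcard
    · rw [hGa, h, Matrix.trace_neg, Matrix.trace_one]
      exact neg_ne_zero.mpr hcard
  have hc0 : c ≠ 0 := by
    rw [hc]
    refine neg_ne_zero.mpr (mul_ne_zero (mul_ne_zero (pow_ne_zero _ (by norm_num)) ?_) htr)
    exact_mod_cast Nat.factorial_ne_zero _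
  exact mul_ne_zero hc0 (hpos _ t (by omega)) hfin

end Pool.Agent.Y727.CS
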