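import Pool.Agent.Y727.CS.Stm

/-!
# Nonemptiness of the Clifford spectrum: assembly of the even case
-/

set_option autoImplicit false

namespace Pool.Agent.Y727.CS

open Matrix MeasureTheory

variable {ι : Type} [Fintype ι] [DecidableEq ι]

theorem X_smul {d : ℕ} (g : Fin d → Matrix ι ι ℂ) (c : ℝ) (x : Fin d → ℝ) :
    X g (c • x) = (c : ℂ) • X g x := by
  simp only [X, Finset.smul_sum, smul_smul, Pi.smul_apply, smul_eq_mul, Complex.ofReal_mul]

theorem X_sq {d : ℕ} {g : Fin d → Matrix ι ι ℂ} (hg : Cl g) (x : Fin d → ℝ) :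
    X g x * X g x = (nsq x : ℂ) • (1 : Matrix ι ι ℂ) := by
  classical
  have h1 : X g x * X g x = ∑ j, ∑ k, ((x j : ℂ) * (x k : ℂ)) • (g j * g k) := by
    simp only [X, Finset.sum_mul, Finset.mul_sum, smul_mul_smul_comm]
    exact Finset.sum_comm
  have h2 : X g x * X g x = ∑ j, ∑ k, ((x j : ℂ) * (x k : ℂ)) • (g k * g j) := by
    rw [h1, Finset.sum_comm]
    refine Finset.sum_congr rfl fun j _ => Finset.sum_congr rfl fun k _ => ?_
    rw [mul_comm (x k : ℂ)]
  have h3 : (2 : ℂ) • (X g x * X g x) = (2 : ℂ) • ((nsq x : ℂ) • (1 : Matrix ι ι ℂ)) := by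
    rw [two_smul]
    nth_rewrite 1 [h1]
    rw [h2, ← Finset.sum_add_distrib]
    have : ∀ j : Fin d, (∑ k, ((x j : ℂ) * (x k : ℂ)) • (g j * g k)) +
        (∑ k, ((x j : ℂ) * (x k : ℂ)) • (g k * g j)) = (2 * (x j : ℂ) ^ 2) • (1 : Matrix ι ι ℂ) := by
      intro j
      rw [← Finset.sum_add_distrib, Finset.sum_eq_single j]
      · rw [hg.1 j, ← add_smul]
        congr 1
        ring
      · intro k _ hk
        rw [hg.2 j k (Ne.symm hk), smul_neg, neg_add_cancel]
      · intro h
        exact absurd (Finset.mem_univ j) h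
    rw [Finset.sum_congr rfl fun j _ => this j, ← Finset.sum_smul, smul_smul]
    congr 1
    simp only [nsq, Complex.ofReal_sum, Complex.ofReal_pow, Finset.mul_sum]
  exact smul_right_injective _ (two_ne_zero' ℂ) h3

theorem continuous_X {d : ℕ} (g : Fin d → Matrix ι ι ℂ) : Continuous (X g) := by
  unfold X
  refine continuous_finsetSum _ fun j _ => ?_
  exact (Complex.continuous_ofReal.comp (continuous_apply j)).smul continuous_const

theorem continuous_nsq {d : ℕ} : Continuous (nsq : (Fin d → ℝ) → ℝ) := by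
  unfold nsq
  exact continuous_finsetSum _ fun j _ => (continuous_apply j).pow 2

theorem word_succ {k : ℕ} (S : Matrix ι ι ℂ) (w : Fin (k + 1) → Matrix ι ι ℂ) :
    word S w = S * w 0 * word S (fun i => w i.succ) := by
  unfold word
  rw [List.ofFn_succ, List.prod_cons]

theorem word_zero (S : Matrix ι ι ℂ) (w : Fin 0 → Matrix ι ι ℂ) : word S w = 1 := by
  unfold word
  simp

theorem word_smul (c : ℂ) (S : Matrix ι ι ℂ) : ∀ {k : ℕ} (w : Fin k → Matrix ι ι ℂ),
    word (c • S) w = c ^ k • word S w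
  | 0, w => by simp [word_zero]
  | k + 1, w => by
    rw [word_succ, word_succ, word_smul c S (fun i => w i.succ), smul_mul_assoc, smul_mul_assoc,
      mul_smul_comm, smul_smul, pow_succ']

theorem continuous_word : ∀ {k : ℕ} (w : Fin k → Matrix ι ι ℂ),
    Continuous fun S : Matrix ι ι ℂ => word S w
  | 0, w => by simpa [word_zero] using continuous_const
  | k + 1, w => by
    have := continuous_word (fun i => w i.succ)
    simp only [word_succ]
    exact (continuous_id.matrix_mul continuous_const).matrix_mul this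

theorem gam_comm {d : ℕ} {g : Fin d → Matrix ι ι ℂ} {B : Matrix ι ι ℂ}
    (h : ∀ k, B * g k = g k * B) : B * Gam g = Gam g * B := by
  have : ∀ l : List (Matrix ι ι ℂ), (∀ a ∈ l, B * a = a * B) → B * l.prod = l.prod * B := by
    intro l
    induction l with
    | nil => intro _; simp
    | cons a l ih =>
      intro hl
      rw [List.prod_cons, ← mul_assoc, hl a (by simp), mul_assoc,
        ih fun b hb => hl b (by simp [hb]), mul_assoc]
  refine this _ fun a ha => ?_
  rw [List.mem_ofFn] at ha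
  obtain ⟨k, rfl⟩ := ha
  exact h k

theorem inv_anti {M Ga : Matrix ι ι ℂ} (hM : M.det ≠ 0) (h : M * Ga = -(Ga * M)) :
    M⁻¹ * Ga = -(Ga * M⁻¹) := by
  have hu : IsUnit M.det := isUnit_iff_ne_zero.mpr hM
  have h1 : M⁻¹ * Ga = M⁻¹ * (Ga * M) * M⁻¹ := by
    rw [mul_assoc, mul_assoc, Matrix.mul_nonsing_inv M hu, mul_one]
  rw [h1, show Ga * M = -(M * Ga) by rw [h, neg_neg], mul_neg, ← mul_assoc,
    Matrix.nonsing_inv_mul M hu, one_mul, neg_mul]

theorem continuousOn_inv {α : Type*} [TopologicalSpace α] {s : Set α}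
    {M : α → Matrix ι ι ℂ} (hM : Continuous M) (h : ∀ a ∈ s, (M a).det ≠ 0) :
    ContinuousOn (fun a => (M a)⁻¹) s := by
  have h1 : (fun a => (M a)⁻¹) = fun a => ((M a).det)⁻¹ • (M a).adjugate := by
    funext a
    rw [Matrix.inv_def, Ring.inverse_eq_inv']
  rw [h1]
  exact (hM.matrix_det.continuousOn.inv₀ h).smul hM.matrix_adjugate.continuousOn

theorem psi_zero : psi 0 = 0 := by
  unfold psi
  norm_num

end Pool.Agent.Y727.CS
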