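import Pool.Agent.Y881.CS.Stm

/-! Project CS (helper881), part PER (almost periods), by helper727. -/

set_option autoImplicit false

namespace Pool.Agent.Y727.CS

open Finset Pool.Agent.TH858 Pool.Agent.TH858.GP Pool.Agent.Y881.CS
open scoped Pointwise

theorem t_PER (hCS : S_CS) : S_PER := by
  refine ⟨20000, by norm_num, ?_⟩
  intro G _ _ _ A X M k hA hX hM hAX hAA hk
  have hlog2 := Real.log_two_gt_d9
  have hlog2' := Real.log_two_lt_d9
  have hL : (0.69 : ℝ) < Real.log M := by
    have h2 : Real.log 2 ≤ Real.log M := Real.log_le_log (by norm_num) hM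
    linarith
  obtain ⟨m, hm⟩ : ∃ m : ℕ, m = ⌈Real.log M⌉₊ := ⟨_, rfl⟩
  have hm1 : 1 ≤ m := by rw [hm]; exact Nat.one_le_ceil_iff.2 (by linarith)
  have hmL : (m : ℝ) ≤ Real.log M + 1 := by
    rw [hm]; exact (Nat.ceil_lt_add_one (by linarith)).le
  have hLm : Real.log M ≤ m := by rw [hm]; exact Nat.le_ceil _
  have hk' : (1 : ℝ) ≤ k := by exact_mod_cast hk
  have hm' : (1 : ℝ) ≤ m := by exact_mod_cast hm1
  have hMpos : (0 : ℝ) < M := by linarith
  obtain ⟨ε, hεd⟩ : ∃ ε : ℝ, ε = 1 / (16 * k) := ⟨_, rfl⟩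
  obtain ⟨n, hn⟩ : ∃ n : ℕ, n = 6144 * m * k ^ 2 := ⟨_, rfl⟩
  have hε : 0 < ε := by rw [hεd]; positivity
  have hn' : (n : ℝ) = 6144 * m * k ^ 2 := by rw [hn]; push_cast; ring
  have h24 : 24 * (m : ℝ) ≤ n * ε ^ 2 := by
    rw [hn', hεd]
    have : 6144 * (m : ℝ) * k ^ 2 * (1 / (16 * k)) ^ 2 = 24 * m := by
      field_simp
      norm_num
    rw [this]
  have hmn : m ≤ n := by
    rw [hn]
    have : 1 ≤ k ^ 2 := Nat.one_le_pow _ _ hk
    nlinarith
  obtain ⟨T, hTX, hT, hTT⟩ := hCS G A X (A - A) M ε n m hA hX (by linarith) hAX hm1 hmn hε h24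
  refine ⟨T, hTX, ?_, ?_, ?_⟩
  · rw [Finset.nonempty_iff_ne_empty]
    rintro rfl
    have h1 : (X.card : ℝ) ≤ 0 := by simpa using hT
    have h2 : 0 < X.card := hX.card_pos
    have h3 : (0 : ℝ) < X.card := by exact_mod_cast h2
    linarith
  · refine hT.trans (mul_le_mul_of_nonneg_right ?_ (by positivity))
    have h1 : (2 : ℝ) * M ^ n = Real.exp (Real.log 2 + n * Real.log M) := by
      rw [Real.exp_add, Real.exp_log (by norm_num), Real.exp_nat_mul, Real.exp_log hMpos]
    rw [h1]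
    refine Real.exp_le_exp.2 ?_
    rw [hn']
    have h2 : (m : ℝ) ≤ 2.5 * Real.log M := by linarith
    have h3 : (0 : ℝ) ≤ k ^ 2 := by positivity
    have h4 : (1 : ℝ) ≤ k ^ 2 := one_le_pow₀ hk'
    have h5 : 6144 * (m : ℝ) * k ^ 2 * Real.log M ≤ 6144 * (2.5 * Real.log M) * k ^ 2 * Real.log M := by
      have : 0 ≤ Real.log M := by linarith
      gcongr
    have h6 : Real.log 2 ≤ 2 * Real.log M ^ 2 := by nlinarith
    have h7 : 2 * Real.log M ^ 2 ≤ 2 * Real.log M ^ 2 * k ^ 2 :=
      le_mul_of_one_le_right (by positivity) h4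
    nlinarith [sq_nonneg (Real.log M), mul_nonneg h3 (sq_nonneg (Real.log M))]
  · intro t ht t' ht' v
    have hAc : (0 : ℝ) < A.card := by exact_mod_cast hA.card_pos
    set B := A - A with hB
    let u : G → ℝ := fun a' => |gg A B (v - a' + t - t') - gg A B (v - a')|
    have hu0 : ∀ a', 0 ≤ u a' := fun a' => abs_nonneg _
    have h1 : |pr A B (v + t - t') - pr A B v| ≤ ∑ a' ∈ A, (1 / (A.card : ℝ)) * u a' := by
      unfold pr
      rw [← sub_div, ← Finset.sum_sub_distrib, abs_div, abs_of_pos hAc, ← Finset.mul_sum,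
        div_eq_mul_one_div, mul_comm]
      refine mul_le_mul_of_nonneg_left ?_ (by positivity)
      refine (Finset.abs_sum_le_sum_abs _ _).trans (le_of_eq (Finset.sum_congr rfl fun a' _ => ?_))
      show _ = |gg A B (v - a' + t - t') - gg A B (v - a')|
      congr 3
      abel
    have h2 : (∑ a' ∈ A, (1 / (A.card : ℝ)) * u a') ^ (2 * m) ≤
        ∑ a' ∈ A, (1 / (A.card : ℝ)) * u a' ^ (2 * m) := by
      refine Real.pow_arith_mean_le_arith_mean_pow A (fun _ => 1 / (A.card : ℝ)) u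
        (fun _ _ => by positivity) ?_ (fun a' _ => hu0 a') _
      rw [Finset.sum_const, nsmul_eq_mul, mul_one_div, div_self hAc.ne']
    have h3 : ∑ a' ∈ A, u a' ^ (2 * m) ≤ ε ^ (2 * m) * B.card := by
      refine le_trans ?_ (hTT t ht t' ht')
      have h4 : ∑ a' ∈ A, u a' ^ (2 * m) =
          ∑ z ∈ A.image (fun a' => v - a'), |gg A B (z + t - t') - gg A B z| ^ (2 * m) := by
        rw [Finset.sum_image]
        intro a _ b _ hab
        exact sub_right_injective hab
      rw [h4]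
      exact Finset.sum_le_sum_of_subset_of_nonneg (Finset.subset_univ _)
        (fun _ _ _ => by positivity)
    have h5 : M ≤ 4 ^ m := by
      calc M = Real.exp (Real.log M) := (Real.exp_log hMpos).symm
        _ ≤ Real.exp (m * 1) := Real.exp_le_exp.2 (by linarith)
        _ = Real.exp 1 ^ m := by rw [Real.exp_nat_mul]
        _ ≤ 4 ^ m := by
          have := Real.exp_one_lt_d9
          refine pow_le_pow_left₀ (Real.exp_pos _).le (by linarith) _
    have h6 : |pr A B (v + t - t') - pr A B v| ^ (2 * m) ≤ (1 / (8 * (k : ℝ))) ^ (2 * m) := by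
      calc |pr A B (v + t - t') - pr A B v| ^ (2 * m)
          ≤ (∑ a' ∈ A, (1 / (A.card : ℝ)) * u a') ^ (2 * m) :=
            pow_le_pow_left₀ (abs_nonneg _) h1 _
        _ ≤ (1 / (A.card : ℝ)) * (ε ^ (2 * m) * B.card) := by
            refine h2.trans ?_
            rw [← Finset.mul_sum]
            exact mul_le_mul_of_nonneg_left h3 (by positivity)
        _ ≤ (1 / (A.card : ℝ)) * (ε ^ (2 * m) * (M * A.card)) := by gcongr
        _ = ε ^ (2 * m) * M := by field_simp
        _ ≤ ε ^ (2 * m) * 4 ^ m := by gcongr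
        _ = (1 / (8 * (k : ℝ))) ^ (2 * m) := by
            rw [pow_mul, pow_mul, ← mul_pow, hεd]
            congr 1
            field_simp
            norm_num
    exact (pow_le_pow_iff_left₀ (abs_nonneg _) (by positivity) (by omega)).1 h6

end Pool.Agent.Y727.CS
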