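import Pool.Agent.Y881.CS.Stm

/-! Project CS (helper881), part SAN (the argument of Sanders), by helper727. -/

set_option autoImplicit false

namespace Pool.Agent.Y727.CS

open Finset Pool.Agent.TH858 Pool.Agent.TH858.GP Pool.Agent.Y881.CS
open scoped Pointwise

theorem t_SAN (hPER : S_PER) (hFOU : S_FOU) : S_SAN := by
  obtain ⟨C₀, hC₀, hPER⟩ := hPER
  refine ⟨36 * C₀, by positivity, ?_⟩
  intro N _ A X M hA hX hM hAX hAA
  have hlog2 := Real.log_two_gt_d9
  have hL : (0.69 : ℝ) < Real.log M := by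
    have h2 : Real.log 2 ≤ Real.log M := Real.log_le_log (by norm_num) hM
    linarith
  have hMpos : (0 : ℝ) < M := by linarith
  obtain ⟨k, hk⟩ : ∃ k : ℕ, k = ⌈Real.log M⌉₊ + 2 := ⟨_, rfl⟩
  have hk1 : 1 ≤ k := by omega
  have hk' : (1 : ℝ) ≤ k := by exact_mod_cast hk1
  have hkL : (k : ℝ) ≤ 6 * Real.log M := by
    have h1 : (⌈Real.log M⌉₊ : ℝ) ≤ Real.log M + 1 := (Nat.ceil_lt_add_one (by linarith)).le
    rw [hk]; push_cast; linarith
  have h16 : 16 * M ≤ 4 ^ k := by
    have h1 : M ≤ 4 ^ ⌈Real.log M⌉₊ := by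
      calc M = Real.exp (Real.log M) := (Real.exp_log hMpos).symm
        _ ≤ Real.exp (⌈Real.log M⌉₊ * 1) := Real.exp_le_exp.2 (by
            have := Nat.le_ceil (Real.log M); linarith)
        _ = Real.exp 1 ^ ⌈Real.log M⌉₊ := by rw [Real.exp_nat_mul]
        _ ≤ 4 ^ ⌈Real.log M⌉₊ := by
          have := Real.exp_one_lt_d9
          refine pow_le_pow_left₀ (Real.exp_pos _).le (by linarith) _
    rw [hk, pow_add]
    linarith
  obtain ⟨T, hTX, hTne, hT, hTT⟩ := hPER (ZMod N) A X M k hA hX hM hAX hAA hk1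
  refine ⟨T, hTX, hTne, hT.trans (mul_le_mul_of_nonneg_right (Real.exp_le_exp.2 ?_)
    (by positivity)), ?_⟩
  · have h1 : (k : ℝ) ^ 2 ≤ (6 * Real.log M) ^ 2 := pow_le_pow_left₀ (by positivity) hkL 2
    calc C₀ * (k : ℝ) ^ 2 * Real.log M ^ 2 ≤ C₀ * (6 * Real.log M) ^ 2 * Real.log M ^ 2 := by
          gcongr
      _ = 36 * C₀ * Real.log M ^ 4 := by ring
  · intro x hx
    set p := pr A (A - A) with hp
    have hAc : (0 : ℝ) < A.card := by exact_mod_cast hA.card_pos
    have hTc : (0 : ℝ) < T.card := by exact_mod_cast hTne.card_pos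
    -- telescoping
    have ha : ∀ s ∈ Fintype.piFinset (fun _ : Fin k => T ×ˢ T), ∀ v : ZMod N,
        ∀ I : Finset (Fin k), |p (v + ∑ i ∈ I, ((s i).1 - (s i).2)) - p v| ≤
          I.card * (1 / (8 * (k : ℝ))) := by
      intro s hs v I
      rw [Fintype.mem_piFinset] at hs
      induction I using Finset.induction_on with
      | empty => simp
      | insert i I hi ih =>
        rw [Finset.sum_insert hi, Finset.card_insert_of_notMem hi]
        have h1 := hs i
        rw [Finset.mem_product] at h1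
        have h2 := hTT _ h1.1 _ h1.2 (v + ∑ i ∈ I, ((s i).1 - (s i).2))
        have h3 : v + ((s i).1 - (s i).2 + ∑ i ∈ I, ((s i).1 - (s i).2)) =
            v + ∑ i ∈ I, ((s i).1 - (s i).2) + (s i).1 - (s i).2 := by abel
        rw [h3]
        have h4 := abs_add_le (p (v + ∑ i ∈ I, ((s i).1 - (s i).2) + (s i).1 - (s i).2) -
          p (v + ∑ i ∈ I, ((s i).1 - (s i).2))) (p (v + ∑ i ∈ I, ((s i).1 - (s i).2)) - p v)
        rw [sub_add_sub_cancel] at h4
        push_cast
        linarith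
    have hb : ∀ v : ZMod N, |av k T p v - p v| ≤ 1 / 8 := by
      intro v
      have hD : (0 : ℝ) < ((T.card : ℝ) ^ 2) ^ k := by positivity
      have hcard : ((Fintype.piFinset (fun _ : Fin k => T ×ˢ T)).card : ℝ) =
          ((T.card : ℝ) ^ 2) ^ k := by
        rw [Fintype.card_piFinset]
        simp [Finset.card_product, sq]
      have h1 : av k T p v - p v = (∑ s ∈ Fintype.piFinset (fun _ : Fin k => T ×ˢ T),
          (p (v + ∑ i, ((s i).1 - (s i).2)) - p v)) / ((T.card : ℝ) ^ 2) ^ k := by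
        unfold av
        rw [Finset.sum_sub_distrib, Finset.sum_const, nsmul_eq_mul, hcard, sub_div,
          mul_div_cancel_left₀ _ hD.ne']
      rw [h1, abs_div, abs_of_pos hD, div_le_iff₀ hD]
      refine (Finset.abs_sum_le_sum_abs _ _).trans ?_
      have h2 : ∑ s ∈ Fintype.piFinset (fun _ : Fin k => T ×ˢ T),
          |p (v + ∑ i, ((s i).1 - (s i).2)) - p v| ≤
          ∑ s ∈ Fintype.piFinset (fun _ : Fin k => T ×ˢ T), (1 / 8 : ℝ) := by
        refine Finset.sum_le_sum fun s hs => ?_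
        refine (ha s hs v univ).trans (le_of_eq ?_)
        rw [Finset.card_univ, Fintype.card_fin]
        field_simp
      refine h2.trans (le_of_eq ?_)
      rw [Finset.sum_const, nsmul_eq_mul, hcard, mul_comm]
    have hc : p 0 = 1 := by
      have h1 : ∀ a' ∈ A, gg A (A - A) (0 - a') = 1 := by
        intro a' ha'
        unfold gg
        rw [Finset.filter_true_of_mem, div_self hAc.ne']
        intro a haA
        rw [zero_sub, ← sub_eq_add_neg]
        exact Finset.sub_mem_sub haA ha'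
      show (∑ a' ∈ A, gg A (A - A) (0 - a')) / (A.card : ℝ) = 1
      rw [Finset.sum_congr rfl h1, Finset.sum_const, nsmul_eq_mul, mul_one, div_self hAc.ne']
    have hd := hFOU N A (A - A) T M k hA hTne hMpos hAA h16 x hx
    have h1 := hb x
    have h2 := hb 0
    rw [abs_le] at h1 h2 hd
    have hpx : 0 < p x := by
      rw [hc] at h2
      linarith [h1.1, h1.2, h2.1, h2.2, hd.1, hd.2]
    have h3 : ∃ a' ∈ A, 0 < gg A (A - A) (x - a') := by
      by_contra hcon
      push Not at hcon
      have h4 : p x ≤ 0 := by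
        show (∑ a' ∈ A, gg A (A - A) (x - a')) / (A.card : ℝ) ≤ 0
        exact div_nonpos_of_nonpos_of_nonneg (Finset.sum_nonpos hcon) hAc.le
      linarith
    obtain ⟨a', ha', hg⟩ := h3
    have h5 : (A.filter fun a => a + (x - a') ∈ A - A).Nonempty := by
      rw [Finset.nonempty_iff_ne_empty]
      intro h0
      unfold gg at hg
      rw [h0] at hg
      simp at hg
    obtain ⟨a, haf⟩ := h5
    rw [Finset.mem_filter] at haf
    obtain ⟨b, hbA, b', hb'A, hbb⟩ := Finset.mem_sub.1 haf.2
    refine ⟨a', ha', b, hbA, a, haf.1, b', hb'A, ?_⟩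
    have h6 : a' + b - a - b' = a' + (b - b') - a := by abel
    rw [h6, hbb]
    abel

end Pool.Agent.Y727.CS
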